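import Pool.Agent.Helper26.GG.Defs
import Pool.Agent.Helper26.MQ.Bounds2

/-!
# Random maps with a dominant last component: the counts
-/

set_option autoImplicit false

namespace Pool.Agent.Helper52.GG

open Finset MvPolynomial Pool.Agent.Helper86.MQ Pool.Agent.Helper26.GT Pool.Agent.Helper26.GG
open Pool.Agent.Helper26.MQ (trap_count double scaling_card card_span interp_affine interp_form)

variable {F : Type*} [Field F] {m d e : ℕ}

theorem wd_pos (he : 1 ≤ e) (hed : e < d) (i : Fin (m + 1)) : 1 ≤ wd d e i := by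
  unfold wd
  split_ifs <;> omega

theorem card_fiber_le {I : Type*} [Fintype I] [DecidableEq I] [Fintype F] {r : ℕ}
    (f : (I → F) →+ (Fin r → Fin (m + 1) → F)) (hf : Function.Surjective f)
    (y : Fin r → Fin (m + 1) → F) :
    {c : I → F | f c = y}.ncard * Fintype.card (Fin (m + 1) → F) ^ r ≤
      Fintype.card (I → F) := by
  classical
  have hcard : ∀ z, (univ.filter fun c => f c = z).card = (univ.filter fun c => f c = y).card :=
    fun z => AddMonoidHom.card_fiber_eq_of_mem_range f (hf z) (hf y)
  have h1 : Fintype.card (I → F) =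
      ∑ z : Fin r → Fin (m + 1) → F, (univ.filter fun c => f c = z).card := by
    rw [← Finset.card_univ]
    exact Finset.card_eq_sum_card_fiberwise (fun c _ => Finset.mem_coe.2 (Finset.mem_univ _))
  have h2 : Fintype.card (I → F) =
      Fintype.card (Fin (m + 1) → F) ^ r * (univ.filter fun c => f c = y).card := by
    rw [h1, Finset.sum_congr rfl fun z _ => hcard z, Finset.sum_const, smul_eq_mul,
      Finset.card_univ, Fintype.card_fun (α := Fin r)]
    simp
  have h3 : {c : I → F | f c = y}.ncard = (univ.filter fun c => f c = y).card := by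
    rw [← Set.ncard_coe_finset]
    congr 1
    ext c
    simp
  rw [h3, h2, mul_comm]

/-- Equidistribution of the values at affinely independent points. -/
theorem fiber_affine [Fintype F] (he : 1 ≤ e) (hed : e < d) {r : ℕ}
    (x : Fin r → Fin (m + 1) → F)
    (hx : LinearIndependent F fun k => ((1 : F), x k)) (y : Fin r → Fin (m + 1) → F) :
    {c : Gdx m d e → F | ∀ k, pm (gP c) (x k) = y k}.ncard *
      Fintype.card (Fin (m + 1) → F) ^ r ≤ Fintype.card (Gdx m d e → F) := by
  classical
  choose P hP1 hP2 using interp_affine (d := 1) le_rfl x hx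
  let f : (Gdx m d e → F) →+ (Fin r → Fin (m + 1) → F) :=
    { toFun := fun c k => pm (gP c) (x k)
      map_zero' := by
        funext k i
        simp [pm, gP]
      map_add' := by
        intro c c'
        funext k i
        simp [pm, gP, Finset.sum_add_distrib] }
  have hf : Function.Surjective f := by
    intro y
    refine ⟨fun k' : Gdx m d e =>
      coeff (k'.2 : Fin (m + 1) →₀ ℕ) ((fun i => ∑ k, C (y k i) * P k) k'.1), ?_⟩
    funext k i
    change pm (gP _) (x k) i = y k i
    rw [pm, gP_coeff (fun i => ∑ k, C (y k i) * P k)]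
    · rw [map_sum]
      simp only [map_mul, eval_C, hP2]
      simp
    · intro i s hs
      rw [coeff_sum]
      refine Finset.sum_eq_zero fun k _ => ?_
      have hs1 : ¬ s.degree ≤ 1 := fun h => hs (h.trans (wd_pos he hed i))
      rw [coeff_C_mul, hP1 k s hs1, mul_zero]
  have h := card_fiber_le f hf y
  have e : {c : Gdx m d e → F | ∀ k, pm (gP c) (x k) = y k} =
      {c : Gdx m d e → F | f c = y} := by
    ext c
    exact ⟨fun h => funext h, fun h k => congrFun h k⟩
  rw [e]
  exact h

theorem gF_add (c c' : Gdx m d e → F) (i : Fin (m + 1)) :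
    gF (c + c') i = gF c i + gF c' i := by
  simp [gF, gP, Finset.sum_add_distrib]

/-- Equidistribution of the values of the leading forms at independent points. -/
theorem fiber_form [Fintype F] (he : 1 ≤ e) (hed : e < d) {r : ℕ}
    (x : Fin r → Fin (m + 1) → F)
    (hx : LinearIndependent F x) (y : Fin r → Fin (m + 1) → F) :
    {c : Gdx m d e → F | ∀ k, pm (gF c) (x k) = y k}.ncard *
      Fintype.card (Fin (m + 1) → F) ^ r ≤ Fintype.card (Gdx m d e → F) := by
  classical
  have hex : ∀ (i : Fin (m + 1)) (k : Fin r), ∃ P : MvPolynomial (Fin (m + 1)) F,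
      P.IsHomogeneous (wd d e i) ∧ ∀ j, eval (x j) P = if j = k then 1 else 0 := fun i k =>
    interp_form (d := wd d e i) (by have := wd_pos he hed i; omega) x hx k
  choose P hP1 hP2 using hex
  let f : (Gdx m d e → F) →+ (Fin r → Fin (m + 1) → F) :=
    { toFun := fun c k => pm (gF c) (x k)
      map_zero' := by
        funext k i
        simp [pm, gF, gP]
      map_add' := by
        intro c c'
        funext k i
        simp only [pm, Pi.add_apply]
        rw [gF_add, map_add] }
  have hf : Function.Surjective f := by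
    intro y
    have hQ : ∀ i, (∑ k, C (y k i) * P i k : MvPolynomial (Fin (m + 1)) F).IsHomogeneous
        (wd d e i) := by
      intro i
      refine IsHomogeneous.sum _ _ _ fun k _ => ?_
      have := (isHomogeneous_C (Fin (m + 1)) (y k i)).mul (hP1 i k)
      simpa using this
    refine ⟨fun k' : Gdx m d e =>
      coeff (k'.2 : Fin (m + 1) →₀ ℕ) ((fun i => ∑ k, C (y k i) * P i k) k'.1), ?_⟩
    funext k i
    change pm (gF _) (x k) i = y k i
    rw [pm, gF, gP_coeff (fun i => ∑ k, C (y k i) * P i k)]
    · simp only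
      rw [homogeneousComponent_of_mem (hQ i), if_pos rfl, map_sum]
      simp only [map_mul, eval_C, hP2]
      simp
    · intro i s hs
      exact (hQ i).coeff_eq_zero (by omega)
  have h := card_fiber_le f hf y
  have e : {c : Gdx m d e → F | ∀ k, pm (gF c) (x k) = y k} =
      {c : Gdx m d e → F | f c = y} := by
    ext c
    exact ⟨fun h => funext h, fun h k => congrFun h k⟩
  rw [e]
  exact h

theorem card_hyper [Fintype F] [DecidablePred fun x : Fin (m + 1) → F => x (Fin.last m) = 0] :
    (univ.filter fun x : Fin (m + 1) → F => x (Fin.last m) = 0).card = Fintype.card F ^ m := by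
  classical
  have h : (univ.filter fun x : Fin (m + 1) → F => x (Fin.last m) = 0) =
      (univ : Finset (Fin m → F)).image fun y => (Fin.snoc y 0 : Fin (m + 1) → F) := by
    ext x
    simp only [Finset.mem_filter, Finset.mem_univ, true_and, Finset.mem_image]
    constructor
    · intro hx
      refine ⟨Fin.init x, ?_⟩
      rw [← hx]
      exact Fin.snoc_init_self x
    · rintro ⟨y, rfl⟩
      simp
  have hinj : Function.Injective fun y : Fin m → F => (Fin.snoc y 0 : Fin (m + 1) → F) := by
    intro y y' hy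
    have h1 := congrArg (fun z : Fin (m + 1) → F => Fin.init (α := fun _ => F) z) hy
    simpa using h1
  rw [h, Finset.card_image_of_injective _ hinj]
  simp

theorem bad1 [Fintype F] (he : 1 ≤ e) (hed : e < d) :
    {c : Gdx m d e → F | ¬ T1 c}.ncard * Fintype.card F ≤
      (m + 2) * Fintype.card (Gdx m d e → F) := by
  classical
  set q := Fintype.card F with hq
  have hq0 : 0 < q := Fintype.card_pos
  set S : Finset (Fin (m + 1) → F) := univ.filter fun x => x (Fin.last m) = 0 with hS
  have hcount := trap_count (F := F) (X := Fin (m + 1) → F) (W := F × (Fin (m + 1) → F))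
    (C := Gdx m d e → F) (fun c => pm (gP c)) (fun x => ((1 : F), x)) S
    (fun r x hx y => fiber_affine he hed x hx y) (fun r => q ^ (r - 1)) (by
      intro r x _ hx
      rcases Set.eq_empty_or_nonempty {z | z ∈ S ∧ ((1 : F), z) ∈
        Submodule.span F (Set.range fun k => ((1 : F), x k))} with h0 | ⟨z₀, _, hz₀⟩
      · rw [h0]
        simp
      set Z := {z | z ∈ S ∧ ((1 : F), z) ∈
        Submodule.span F (Set.range fun k => ((1 : F), x k))} with hZ
      have hr : r ≠ 0 := by
        rintro rfl
        have he : (Set.range fun k : Fin 0 => ((1 : F), x k)) = ∅ := Set.range_eq_empty _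
        rw [he, Submodule.span_empty, Submodule.mem_bot] at hz₀
        exact one_ne_zero (Prod.mk.inj hz₀).1
      -- `q * #Z ≤ q ^ r`
      have h1 : q * Z.ncard ≤ q ^ r := by
        rw [hq, ← card_span (fun k => ((1 : F), x k)) hx]
        have h2 : ((Set.univ : Set F) ×ˢ Z).ncard = Fintype.card F * Z.ncard := by
          rw [Set.ncard_prod, Set.ncard_univ, Nat.card_eq_fintype_card]
        rw [← h2]
        refine Set.ncard_le_ncard_of_injOn (fun az : F × (Fin (m + 1) → F) =>
          ((1 : F), az.2) - (1 - az.1) • ((1 : F), z₀)) ?_ ?_ (Set.toFinite _)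
        · rintro ⟨a, z⟩ ⟨_, hz⟩
          exact Submodule.sub_mem _ hz.2 (Submodule.smul_mem _ _ hz₀)
        · rintro ⟨a, z⟩ _ ⟨a', z'⟩ _ h
          simp only [Prod.smul_mk, smul_eq_mul, mul_one, Prod.mk_sub_mk, sub_sub_cancel,
            Prod.mk.injEq] at h
          obtain ⟨h3, h4⟩ := h
          subst h3
          have h5 : z = z' := sub_left_injective h4
          rw [h5]
      have h2 : q * Z.ncard ≤ q * q ^ (r - 1) := by
        rw [← pow_succ']
        have : r - 1 + 1 = r := by omega
        rwa [this]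
      exact Nat.le_of_mul_le_mul_left h2 hq0)
  have hR : Module.finrank F (F × (Fin (m + 1) → F)) = m + 2 := by
    rw [Module.finrank_prod, Module.finrank_self, Module.finrank_fin_fun]
    omega
  rw [hR] at hcount
  have hXc : (Fintype.card (Fin (m + 1) → F) : ℝ) = (q : ℝ) ^ (m + 1) := by
    rw [Fintype.card_fun, Fintype.card_fin]
    push_cast
    rfl
  have hSc : (S.card : ℝ) = (q : ℝ) ^ m := by
    rw [hS, card_hyper]
    push_cast
    rfl
  have hqR : (0 : ℝ) < q := by exact_mod_cast hq0
  have hterm : ∀ r ∈ Finset.Icc 1 (m + 2),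
      (S.card : ℝ) ^ r * ((q ^ (r - 1) : ℕ) : ℝ) / (Fintype.card (Fin (m + 1) → F) : ℝ) ^ r =
        (q : ℝ)⁻¹ := by
    intro r hr
    rw [Finset.mem_Icc] at hr
    obtain ⟨s, rfl⟩ : ∃ s, r = s + 1 := ⟨r - 1, by omega⟩
    rw [hXc, hSc, Nat.add_sub_cancel]
    push_cast
    field_simp
    ring
  rw [Finset.sum_congr rfl hterm, Finset.sum_const, Nat.card_Icc, nsmul_eq_mul] at hcount
  have hle : {c : Gdx m d e → F | ¬ T1 c}.ncard ≤
      {cx : (Gdx m d e → F) × (Fin (m + 1) → F) | cx.2 ∈ S ∧ ((1 : F), cx.2) ≠ 0 ∧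
        ∀ k, (pm (gP cx.1))^[k] cx.2 ∈ S}.ncard := by
    have h2 := double (fun (c : Gdx m d e → F) (x : Fin (m + 1) → F) => x ∈ S ∧
      ((1 : F), x) ≠ 0 ∧ ∀ k, (pm (gP c))^[k] x ∈ S) (univ.filter fun c => ¬ T1 c) 1 (by
        intro c hc
        rw [Finset.mem_filter] at hc
        obtain ⟨_, hc⟩ := hc
        unfold T1 at hc
        push Not at hc
        obtain ⟨x, hx0, hxk⟩ := hc
        rw [Nat.one_le_iff_ne_zero, Ne, Set.ncard_eq_zero (Set.toFinite _)]
        rw [← Ne, ← Set.nonempty_iff_ne_empty]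
        refine ⟨x, ?_, ?_, ?_⟩
        · rw [hS, Finset.mem_filter]
          exact ⟨Finset.mem_univ _, hx0⟩
        · intro h
          exact one_ne_zero (Prod.mk.inj h).1
        · intro k
          rw [hS, Finset.mem_filter]
          exact ⟨Finset.mem_univ _, hxk k⟩)
    rw [mul_one] at h2
    have e : {c : Gdx m d e → F | ¬ T1 c} =
        ((univ.filter fun c : Gdx m d e → F => ¬ T1 c : Finset _) : Set _) := by
      ext c
      simp
    rw [e, Set.ncard_coe_finset]
    exact h2
  have hfinal : ({c : Gdx m d e → F | ¬ T1 c}.ncard : ℝ) * q ≤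
      (m + 2 : ℝ) * Fintype.card (Gdx m d e → F) := by
    have h3 : ({c : Gdx m d e → F | ¬ T1 c}.ncard : ℝ) ≤
        (Fintype.card (Gdx m d e → F) : ℝ) * (((m + 2 + 1 - 1 : ℕ) : ℝ) * (q : ℝ)⁻¹) :=
      le_trans (by exact_mod_cast hle) hcount
    calc ({c : Gdx m d e → F | ¬ T1 c}.ncard : ℝ) * q
        ≤ (Fintype.card (Gdx m d e → F) : ℝ) * (((m + 2 + 1 - 1 : ℕ) : ℝ) * (q : ℝ)⁻¹) * q :=
          mul_le_mul_of_nonneg_right h3 hqR.le
      _ = (m + 2 : ℝ) * Fintype.card (Gdx m d e → F) := by
          have : ((m + 2 + 1 - 1 : ℕ) : ℝ) = (m : ℝ) + 2 := by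
            have : m + 2 + 1 - 1 = m + 2 := by omega
            rw [this]
            push_cast
            ring
          rw [this]
          field_simp
  exact_mod_cast hfinal

theorem gF_isHomogeneous (c : Gdx m d e → F) (i : Fin (m + 1)) :
    (gF c i).IsHomogeneous (wd d e i) :=
  homogeneousComponent_isHomogeneous _ _

theorem pm_smul (c : Gdx m d e → F) (a : F) (x : Fin (m + 1) → F)
    (hx : pm (gF c) x (Fin.last m) = 0) : pm (gF c) (a • x) = a ^ e • pm (gF c) x := by
  funext i
  have h1 : pm (gF c) (a • x) i = a ^ wd d e i * pm (gF c) x i :=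
    Pool.Agent.Helper26.MQ.eval_smul_of_hom (gF_isHomogeneous c i) a x
  rw [h1, Pi.smul_apply, smul_eq_mul]
  by_cases hi : i = Fin.last m
  · rw [hi, hx, mul_zero, mul_zero]
  · rw [wd, if_neg hi]

theorem pm_iter_smul (c : Gdx m d e → F) (k : ℕ) : ∀ (x : Fin (m + 1) → F)
    (_ : ∀ k, (pm (gF c))^[k] x (Fin.last m) = 0) (a : F),
    ∃ b : F, (pm (gF c))^[k] (a • x) = b • (pm (gF c))^[k] x := by
  induction k with
  | zero => exact fun x _ a => ⟨a, rfl⟩
  | succ k ih =>
    intro x hx a
    rw [Function.iterate_succ_apply, Function.iterate_succ_apply, pm_smul c a x (hx 1)]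
    refine ih _ (fun l => ?_) _
    have h1 := hx (l + 1)
    rwa [Function.iterate_succ_apply] at h1

theorem bad2 [Fintype F] (he : 1 ≤ e) (hed : e < d) :
    {c : Gdx m d e → F | ¬ T2 c}.ncard * Fintype.card F ≤
      2 * (m + 1) * Fintype.card (Gdx m d e → F) := by
  classical
  set q := Fintype.card F with hq
  have hq2 : 2 ≤ q := Fintype.one_lt_card
  set S : Finset (Fin (m + 1) → F) := univ.filter fun x => x (Fin.last m) = 0 with hS
  have hcount := trap_count (F := F) (X := Fin (m + 1) → F) (W := Fin (m + 1) → F)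
    (C := Gdx m d e → F) (fun c => pm (gF c)) (fun x => x) S
    (fun r x hx y => fiber_form he hed x hx y) (fun r => q ^ r) (by
      intro r x _ hx
      rw [hq, ← card_span x hx]
      exact Set.ncard_le_ncard (fun z hz => hz.2) (Set.toFinite _))
  have hR : Module.finrank F (Fin (m + 1) → F) = m + 1 := by
    rw [Module.finrank_fin_fun]
  rw [hR] at hcount
  have hXc : (Fintype.card (Fin (m + 1) → F) : ℝ) = (q : ℝ) ^ (m + 1) := by
    rw [Fintype.card_fun, Fintype.card_fin]
    push_cast
    rfl
  have hSc : (S.card : ℝ) = (q : ℝ) ^ m := by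
    rw [hS, card_hyper]
    push_cast
    rfl
  have hqR : (0 : ℝ) < q := by
    have : 0 < q := by omega
    exact_mod_cast this
  have hterm : ∀ r ∈ Finset.Icc 1 (m + 1),
      (S.card : ℝ) ^ r * ((q ^ r : ℕ) : ℝ) / (Fintype.card (Fin (m + 1) → F) : ℝ) ^ r = 1 := by
    intro r _
    rw [hXc, hSc]
    push_cast
    rw [← pow_mul, ← pow_add, ← pow_mul]
    have : m * r + r = (m + 1) * r := by ring
    rw [this, div_self (by positivity)]
  rw [Finset.sum_congr rfl hterm, Finset.sum_const, Nat.card_Icc, nsmul_eq_mul, mul_one] at hcount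
  have hcountN : {cx : (Gdx m d e → F) × (Fin (m + 1) → F) | cx.2 ∈ S ∧ cx.2 ≠ 0 ∧
      ∀ k, (pm (gF cx.1))^[k] cx.2 ∈ S}.ncard ≤
      Fintype.card (Gdx m d e → F) * (m + 1) := by
    have e : m + 1 + 1 - 1 = m + 1 := by omega
    rw [e] at hcount
    exact_mod_cast hcount
  have h2 := double (fun (c : Gdx m d e → F) (x : Fin (m + 1) → F) => x ∈ S ∧ x ≠ 0 ∧
      ∀ k, (pm (gF c))^[k] x ∈ S) (univ.filter fun c => ¬ T2 c) (q - 1) (by
        intro c hc
        rw [Finset.mem_filter] at hc
        obtain ⟨_, hc⟩ := hc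
        unfold T2 at hc
        push Not at hc
        obtain ⟨x, hx, hx0, hxk⟩ := hc
        refine scaling_card (F := F) _ x hx fun a ha => ?_
        refine ⟨?_, smul_ne_zero ha hx, ?_⟩
        · rw [hS, Finset.mem_filter]
          exact ⟨Finset.mem_univ _, by simp [hx0]⟩
        · intro k
          rw [hS, Finset.mem_filter]
          refine ⟨Finset.mem_univ _, ?_⟩
          obtain ⟨b, hb⟩ := pm_iter_smul c k x hxk a
          rw [hb, Pi.smul_apply, hxk k, smul_zero])
  have e1 : {c : Gdx m d e → F | ¬ T2 c} =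
      ((univ.filter fun c : Gdx m d e → F => ¬ T2 c : Finset _) : Set _) := by
    ext c
    simp
  rw [e1, Set.ncard_coe_finset]
  have h3 : (univ.filter fun c : Gdx m d e → F => ¬ T2 c).card * (q - 1) ≤
      Fintype.card (Gdx m d e → F) * (m + 1) := h2.trans hcountN
  have h4 : q ≤ 2 * (q - 1) := by omega
  calc (univ.filter fun c : Gdx m d e → F => ¬ T2 c).card * q
      ≤ (univ.filter fun c : Gdx m d e → F => ¬ T2 c).card * (2 * (q - 1)) :=
        Nat.mul_le_mul_left _ h4
    _ = 2 * ((univ.filter fun c : Gdx m d e → F => ¬ T2 c).card * (q - 1)) := by ring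
    _ ≤ 2 * (Fintype.card (Gdx m d e → F) * (m + 1)) := Nat.mul_le_mul_left _ h3
    _ = 2 * (m + 1) * Fintype.card (Gdx m d e → F) := by ring

end Pool.Agent.Helper52.GG
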